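import Pool.Agent.Work.MP_065151_ic.All
import Pool.Agent.Work.MP_065151_ry.Fin

/-!
# Fixed points and their preimages: irreducibility and limits of continua
-/

set_option autoImplicit false

open Topology Metric Filter Set

namespace ZZP

open R4C (f K Bot)
open HH (quad filledJulia julia IsBottcher principal IrreducibleBetween Half nH)
open ICP

lemma LimS_compact2 (W : Ultrafilter ℕ) {Hs : ℕ → Set ℂ} {R : ℝ} (hcpt : ∀ n, IsCompact (Hs n))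
    (hne : ∀ n, (Hs n).Nonempty) (hR : ∀ n, ∀ z ∈ Hs n, ‖z‖ ≤ R) : IsCompact (LimS W Hs) := by
  have hsub : LimS W Hs ⊆ closedBall 0 R := by
    rintro z ⟨y, hy, hz⟩
    refine isClosed_closedBall.mem_of_tendsto hz (Eventually.of_forall fun n => ?_)
    simpa using hR n _ (hy n)
  have hclosed : IsClosed (LimS W Hs) := by
    rw [← closure_subset_iff_isClosed]
    intro z hz
    have h1 : ∀ n, ∃ y ∈ Hs n, infDist z (Hs n) = dist z y := fun n =>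
      (hcpt n).exists_infDist_eq_dist (hne n) z
    choose y hy hyd using h1
    refine ⟨y, hy, ?_⟩
    rw [Metric.tendsto_nhds]
    intro ε hε
    obtain ⟨z', ⟨y', hy', hz'⟩, hzz⟩ := Metric.mem_closure_iff.1 hz (ε / 2) (by linarith)
    filter_upwards [Metric.tendsto_nhds.1 hz' (ε / 2) (by linarith)] with n hn
    have h2 : dist z (y n) ≤ dist z (y' n) := by
      rw [← hyd n]
      exact infDist_le_dist_of_mem (hy' n)
    rw [dist_comm]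
    have h3 : dist z (y' n) ≤ dist z z' + dist z' (y' n) := dist_triangle _ _ _
    rw [dist_comm z' (y' n)] at h3
    linarith
  exact (isCompact_closedBall _ _).of_isClosed_subset hclosed hsub

lemma LimS_conn2 (W : Ultrafilter ℕ) {Hs : ℕ → Set ℂ} {R : ℝ} (hcpt : ∀ n, IsCompact (Hs n))
    (hpre : ∀ n, IsPreconnected (Hs n)) (hne : ∀ n, (Hs n).Nonempty)
    (hR : ∀ n, ∀ z ∈ Hs n, ‖z‖ ≤ R) : IsPreconnected (LimS W Hs) := by
  classical
  have hcompact := LimS_compact2 W hcpt hne hR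
  have hlim : ∀ y : ℕ → ℂ, (∀ n, y n ∈ Hs n) → ∃ z ∈ LimS W Hs, Tendsto y W (𝓝 z) := by
    intro y hy
    obtain ⟨z, hz⟩ := HLM_lim W (fun n => hR n _ (hy n))
    exact ⟨z, ⟨y, hy, hz⟩, hz⟩
  rw [isPreconnected_closed_iff]
  intro t t' ht ht' hsu h1 h2
  by_contra hcon0
  have hA : IsCompact (LimS W Hs ∩ t) := hcompact.inter_right ht
  have hB' : IsCompact (LimS W Hs ∩ t') := hcompact.inter_right ht'
  have hd : Disjoint (LimS W Hs ∩ t) (LimS W Hs ∩ t') := by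
    rw [Set.disjoint_left]
    rintro z ⟨hzH, hzt⟩ ⟨-, hzt'⟩
    exact hcon0 ⟨z, hzH, hzt, hzt'⟩
  obtain ⟨U₁, U₂, ho1, ho2, hs1, hs2, hdd⟩ := SeparatedNhds.of_isCompact_isCompact hA hB' hd
  obtain ⟨a, haH, hat⟩ := h1
  obtain ⟨b, hbH, hbt⟩ := h2
  obtain ⟨ya, hya, hla⟩ := haH
  obtain ⟨yb, hyb, hlb⟩ := hbH
  have e1 : ∀ᶠ n in (W : Filter ℕ), ya n ∈ U₁ :=
    hla.eventually (ho1.mem_nhds (hs1 ⟨⟨ya, hya, hla⟩, hat⟩))
  have e2 : ∀ᶠ n in (W : Filter ℕ), yb n ∈ U₂ :=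
    hlb.eventually (ho2.mem_nhds (hs2 ⟨⟨yb, hyb, hlb⟩, hbt⟩))
  have e3 : ∀ᶠ n in (W : Filter ℕ), ∃ y ∈ Hs n, y ∉ U₁ ∪ U₂ := by
    filter_upwards [e1, e2] with n hn1 hn2
    by_contra hcon
    push Not at hcon
    obtain ⟨x, -, hx1, hx2⟩ := hpre n U₁ U₂ ho1 ho2 hcon ⟨ya n, hya n, hn1⟩
      ⟨yb n, hyb n, hn2⟩
    exact Set.disjoint_left.1 hdd hx1 hx2
  set y : ℕ → ℂ := fun n => if h : ∃ y ∈ Hs n, y ∉ U₁ ∪ U₂ then h.choose else ya n with hy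
  have hyH : ∀ n, y n ∈ Hs n := by
    intro n
    by_cases h : ∃ y ∈ Hs n, y ∉ U₁ ∪ U₂
    · simp only [hy, dif_pos h]
      exact h.choose_spec.1
    · simp only [hy, dif_neg h]
      exact hya n
  obtain ⟨w, hwH, hw⟩ := hlim y hyH
  have hwU : w ∈ U₁ ∪ U₂ := by
    rcases hsu hwH with h | h
    · exact Or.inl (hs1 ⟨hwH, h⟩)
    · exact Or.inr (hs2 ⟨hwH, h⟩)
  have e4 : ∀ᶠ n in (W : Filter ℕ), y n ∈ U₁ ∪ U₂ :=
    hw.eventually ((ho1.union ho2).mem_nhds hwU)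
  obtain ⟨n, hn3, hn4⟩ := (e3.and e4).exists
  have h5 : y n ∉ U₁ ∪ U₂ := by
    simp only [hy, dif_pos hn3]
    exact hn3.choose_spec.2
  exact h5 hn4

lemma LimS_mem {W : Ultrafilter ℕ} {Hs : ℕ → Set ℂ} {y p : ℕ → ℂ} {z : ℂ} (hp : ∀ n, p n ∈ Hs n)
    (hy : ∀ᶠ n in (W : Filter ℕ), y n ∈ Hs n) (hz : Tendsto y W (𝓝 z)) : z ∈ LimS W Hs := by
  classical
  refine ⟨fun n => if y n ∈ Hs n then y n else p n, fun n => ?_, ?_⟩
  · by_cases h : y n ∈ Hs n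
    · simp only [if_pos h]
      exact h
    · simp only [if_neg h]
      exact hp n
  · refine hz.congr' ?_
    filter_upwards [hy] with n hn
    simp only [if_pos hn]

/-- Limits of continua that join a fixed point to the critical point, the critical value or the
other preimage of the fixed point. -/
theorem HL3 {c : ℂ} {cs : ℕ → ℂ} {Hs : ℕ → Set ℂ} {U : Set ℂ} (hcs : Tendsto cs atTop (𝓝 c))
    (hcpt : ∀ n, IsCompact (Hs n)) (hpre : ∀ n, IsPreconnected (Hs n))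
    (hsub : ∀ n, Hs n ⊆ K (cs n)) (p : ℕ → ℂ) (hp : ∀ n, p n ∈ Hs n)
    (hfix : ∀ n, f (cs n) (p n) = p n)
    (hor : ∀ n, (0 : ℂ) ∈ Hs n ∨ cs n ∈ Hs n ∨ -p n ∈ Hs n)
    (hU : IsOpen U) (hdis : ∀ n, Disjoint (Hs n) U) :
    ∃ (H : Set ℂ) (q : ℂ), IsCompact H ∧ IsPreconnected H ∧ H ⊆ K c ∧ q ∈ H ∧ f c q = q ∧
      ((0 : ℂ) ∈ H ∨ c ∈ H ∨ -q ∈ H) ∧ Disjoint H U := by
  obtain ⟨R, hR⟩ := K_bdd hcs
  set W : Ultrafilter ℕ := Ultrafilter.of atTop with hW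
  have hWle : (W : Filter ℕ) ≤ atTop := Ultrafilter.of_le atTop
  have hcW : Tendsto cs W (𝓝 c) := hcs.mono_left hWle
  have hR' : ∀ n, ∀ z ∈ Hs n, ‖z‖ ≤ R := fun n z hz => hR n z (hsub n hz)
  have hne : ∀ n, (Hs n).Nonempty := fun n => ⟨p n, hp n⟩
  obtain ⟨q, hq⟩ := HLM_lim W (fun n => hR' n _ (hp n))
  refine ⟨LimS W Hs, q, LimS_compact2 W hcpt hne hR', LimS_conn2 W hcpt hpre hne hR', ?_,
    ⟨p, hp, hq⟩, ?_, ?_, ?_⟩
  · rintro z ⟨y, hy, hz⟩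
    exact usc' hcW (fun n => hsub n (hy n)) hz
  · have h1 : Tendsto (fun n => f (cs n) (p n)) W (𝓝 (f c q)) := (hq.pow 2).add hcW
    have h2 : (fun n => f (cs n) (p n)) = p := funext hfix
    rw [h2] at h1
    exact tendsto_nhds_unique h1 hq
  · have h1 : ∀ᶠ n in (W : Filter ℕ), (0 : ℂ) ∈ Hs n ∨ cs n ∈ Hs n ∨ -p n ∈ Hs n :=
      Eventually.of_forall hor
    rw [Ultrafilter.eventually_or, Ultrafilter.eventually_or] at h1
    rcases h1 with h1 | h1 | h1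
    · exact Or.inl (LimS_mem (y := fun _ => 0) hp h1 tendsto_const_nhds)
    · exact Or.inr (Or.inl (LimS_mem hp h1 hcW))
    · exact Or.inr (Or.inr (LimS_mem (y := fun n => -p n) hp h1 hq.neg))
  · rw [Set.disjoint_left]
    rintro z ⟨y, hy, hz⟩ hzU
    have e1 : ∀ᶠ n in (W : Filter ℕ), y n ∈ U := hz.eventually (hU.mem_nhds hzU)
    obtain ⟨n, hn⟩ := e1.exists
    exact Set.disjoint_left.1 (hdis n) (hy n) hn

theorem main {c : ℂ} (hc : c ≠ -2) (h0 : (0 : ℂ) ∈ filledJulia c) (hJ : julia c = filledJulia c)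
    {φ : ℂ → ℂ} (hφ : IsBottcher c φ)
    (hr : (0 : ℂ) ∈ closure {z | ∃ n : ℕ, 1 ≤ n ∧ (quad c)^[n] 0 = z}) :
    List.TFAE [∃ t : ℝ, principal φ t = julia c,
      ∃ p : ℂ, quad c p = p ∧ IrreducibleBetween (julia c) p (-p),
      ∀ p : ℂ, quad c p = p → IrreducibleBetween (julia c) p (-p),
      ∀ (cs : ℕ → ℂ) (Hs : ℕ → Set ℂ), Tendsto cs atTop (𝓝 c) → (∀ n, IsCompact (Hs n)) →
        (∀ n, IsConnected (Hs n)) → (∀ n, Hs n ⊆ filledJulia (cs n)) →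
        (∀ n, ∃ p ∈ Hs n, quad (cs n) p = p ∧
          ((0 : ℂ) ∈ Hs n ∨ cs n ∈ Hs n ∨ -p ∈ Hs n)) →
        Tendsto (fun n => hausdorffDist (Hs n) (julia c)) atTop (𝓝 0)] := by
  have hi := HH.interior_empty hJ
  have hJK : julia c = K c := by rw [hJ, HH.filledJulia_eq]
  have h0K : (0 : ℂ) ∈ K c := by rwa [HH.filledJulia_eq] at h0
  have hB := partB a_REC a_DIS p_EQH p_HAC hc h0 hJ hφ hr
  have h14 := hB.out 0 3
  have h15 := hB.out 0 4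
  have hfix : ∃ p, f c p = p := by
    obtain ⟨p, hp, -⟩ := HH.land (HH.bo_of_bottcher hφ)
    exact ⟨p, hp⟩
  have hp0 : ∀ p, f c p = p → p ≠ 0 := by
    rintro p hp rfl
    rw [HH.f_zero] at hp
    exact HH.c_ne_zero hi hp
  tfae_have 1 → 3 := by
    intro h1 p hp
    have hpK := HH.fixed_mem_K (show f c p = p from hp)
    refine ⟨hJK ▸ hpK, hJK ▸ (HH.neg_mem_K c p).2 hpK, fun S h2 h3 h4 h5 h6 => ?_⟩
    have h7 := RY.neg_pair h0K hi h3 h4.isPreconnected (hJK ▸ h2) (hp0 p hp) h5 h6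
    exact (h14.1 h1 p hp).2.2 S h2 h3 h4 h7 h5
  tfae_have 3 → 2 := by
    intro h1
    obtain ⟨p, hp⟩ := hfix
    exact ⟨p, hp, h1 p hp⟩
  tfae_have 2 → 1 := by
    rintro ⟨p, hp, -, -, h2⟩
    have hpK := HH.fixed_mem_K (show f c p = p from hp)
    refine (p_EQH c hc h0 hJ φ hφ).2 ?_
    rintro ⟨T, hT⟩
    refine hc (HH.irr_forces h0K hi (x := p) (y := -p) ⟨hpK, (HH.neg_mem_K c p).2 hpK, ?_⟩ hT)
    intro S h3 h4 h5 h6 h7
    rw [h2 S (hJK ▸ h5) h3 ⟨⟨p, h6⟩, h4⟩ h6 h7, hJK]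
  tfae_have 1 → 4 := by
    intro h1 cs Hs hcs hH hHc hHK hHp
    choose p hp hpf hpo using hHp
    have hsub : ∀ n, Hs n ⊆ K (cs n) := fun n => HH.filledJulia_eq (cs n) ▸ hHK n
    rw [hJK]
    refine hconv hcs hsub fun U hU hUK => ?_
    by_contra hcon
    rw [Filter.not_eventually] at hcon
    obtain ⟨σ, hσ, hσ2⟩ := Filter.extraction_of_frequently_atTop hcon
    obtain ⟨H, q, g1, g2, g3, g4, g5, g6, g7⟩ := HL3 (hcs.comp hσ.tendsto_atTop)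
      (Hs := fun n => Hs (σ n)) (U := U) (fun n => hH _) (fun n => (hHc _).isPreconnected)
      (fun n => hsub _) (fun n => p (σ n)) (fun n => hp _) (fun n => hpf _) (fun n => hpo _) hU
      (fun n => by
        rw [Set.disjoint_iff_inter_eq_empty]
        exact Set.not_nonempty_iff_eq_empty.1 (hσ2 n))
    have hcon' : H = julia c := by
      rcases g6 with g6 | g6 | g6
      · exact (h14.1 h1 q g5).2.2 H (hJK ▸ g3) g1 ⟨⟨q, g4⟩, g2⟩ g6 g4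
      · exact (h15.1 h1 q g5).2.2 H (hJK ▸ g3) g1 ⟨⟨q, g4⟩, g2⟩ g6 g4
      · exact (h14.1 h1 q g5).2.2 H (hJK ▸ g3) g1 ⟨⟨q, g4⟩, g2⟩
          (RY.neg_pair h0K hi g1 g2 g3 (hp0 q g5) g4 g6) g4
    obtain ⟨u, hu1, hu2⟩ := hUK
    refine Set.disjoint_left.1 g7 ?_ hu1
    rw [hcon', hJK]
    exact hu2
  tfae_have 4 → 3 := by
    intro h1 p hp
    have hpK := HH.fixed_mem_K (show f c p = p from hp)
    refine ⟨hJK ▸ hpK, hJK ▸ (HH.neg_mem_K c p).2 hpK, fun S h2 h3 h4 h5 h6 => ?_⟩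
    have h7 := h1 (fun _ => c) (fun _ => S) tendsto_const_nhds (fun _ => h3) (fun _ => h4)
      (fun _ => hJ ▸ h2) (fun _ => ⟨p, h5, hp, Or.inr (Or.inr h6)⟩)
    have h8 : hausdorffDist S (julia c) = 0 := tendsto_nhds_unique tendsto_const_nhds h7
    refine eq_of_hd h3 ?_ ⟨p, h5⟩ ⟨p, h2 h5⟩ h8
    rw [hJK]
    exact (R4C.stmt_ELM c).2.2.2.2.1
  tfae_finish

end ZZP
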